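import Pool.Agent.Helper72.Iso.Gen
import Pool.Agent.Helper72.Iso.GlueInv

/-!
# Generic semisimplicity of the big quantum cohomology of isotropic Grassmannians
-/

open Pool.Agent.Helper18.Dub
open Pool.Agent.Helper72.Iso

namespace Pool.Agent.Results.MP_78bf89_ag.IsotropicGrassmannians

/-- Let `1 ≤ m ≤ s` and let `V = v_0 + v_1 X + ⋯ + v_{s-1} X^(s-1)` have algebraically independent
coefficients (the bulk parameters).
(1) The algebras over `ℂ(v_0, …, v_{s-1})` presented by the bulk-deformed quantum relations of the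
symplectic Grassmannian `IG(m, 2n)`, of the odd symplectic Grassmannian `IG(m, 2n+1)` and of the
orthogonal Grassmannians `OG(m, 2n+1)`, `OG(m, 2n)` (for the last one: the part invariant under the
outer automorphism) are finite; the first two are fields, the other two are semisimple.
(2) Let `X` be a Fano manifold and `H'` the span of the classes `φ_a`, `a ∈ κ`, the projection
onto which is a combination of symmetries of `X` (for instance `H'` the whole cohomology). If at
some point of `H'` with values in a field `W ⊇ ℂ` the invariant part of the big quantum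
cohomology is generated by elements `y_0, …, y_{m-1}` satisfying one of the four systems of
relations for some `v_i ∈ W` algebraically independent over `ℂ`, then the big quantum cohomology
of `X` is generically semisimple. -/
theorem result :
    (∀ s m n : ℕ, 1 ≤ m → m ≤ s →
      (s + m ≤ 2 * n + 1 → FieldC s m n) ∧ (s + m ≤ 2 * n + 2 → FieldS s m n) ∧
      (s + m ≤ 2 * n → SemisimpleB s m n) ∧ (s + m + 1 ≤ 2 * n → SemisimpleD s m n)) ∧
    ∀ {κ ν : Type} [Fintype κ] [DecidableEq κ] [Fintype ν] [DecidableEq ν]
      (X : FanoGW (κ ⊕ ν)) {o : κ}, X.one = Sum.inl o →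
      FanoGW.proj κ ν ∈ Submodule.span ℂ {g | X.IsSymmetry g} →
      ∀ (s m n : ℕ) (p : BulkPoint X s m), 1 ≤ m → m ≤ s →
        (s + m ≤ 2 * n + 1 ∧ RelationC m n p.V p.P ∨ s + m ≤ 2 * n + 2 ∧ RelationS m n p.V p.P ∨
          s + m ≤ 2 * n ∧ RelationB m n p.V p.P ∨ s + m + 1 ≤ 2 * n ∧ RelationD m n p.V p.P) →
        X.IsGenericallySemisimple := by
  refine ⟨fun s m n hm hms => ⟨fun h => ⟨isField_AlgC hms (hm.trans hms) h,
    finite_AlgC (hm.trans hms) h⟩, fun h => isField_AlgS hm hms h,
    fun h => isSemisimpleRing_AlgB hms (hm.trans hms) h,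
    fun h => isSemisimpleRing_AlgDp hm hms h⟩, ?_⟩
  intro κ ν _ _ _ _ X o ho hspan s m n p hm hms h
  have hW : CharZero p.W := charZero_of_injective_algebraMap (algebraMap ℂ p.W).injective
  refine isGenericallySemisimple_of_invPoint X ho hspan p.σ ?_
  have hB : IsSemisimpleRing p.B := by
    rcases h with ⟨hn, h⟩ | ⟨hn, Q, h, h0⟩ | ⟨hn, h⟩ | ⟨hn, Q, h, h0⟩
    · exact isSemisimpleRing_of_C hms (hm.trans hms) hn p.indep p.y p.gen h
    · exact isSemisimpleRing_of_S hm hms hn p.indep p.y p.gen Q h h0
    · exact isSemisimpleRing_of_B hms (hm.trans hms) hn p.indep p.y p.gen h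
    · exact isSemisimpleRing_of_D hm hms hn p.indep p.y p.gen Q h h0
  exact p.e.symm.toRingEquiv.isSemisimpleRing

end Pool.Agent.Results.MP_78bf89_ag.IsotropicGrassmannians
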