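import Pool.Agent.Helper72.PF.Final

/-! # Adding almost any element to a generating set of `SL₂(F)` gives logarithmic diameter -/

namespace Pool.Agent.Results.MP_37b372_al.OneExtraGenerator

open Matrix Module

/-- `IsWord S n g`: the group element `g` is a product of at most `n` factors, each of which is an
element of `S` or the inverse of an element of `S`. -/
def IsWord {G : Type} [Group G] (S : Set G) (n : ℕ) (g : G) : Prop :=
  ∃ l : List G, l.length ≤ n ∧ (∀ x ∈ l, x ∈ S ∨ x⁻¹ ∈ S) ∧ l.prod = g

/-- For every `δ > 0` there is `C > 0` such that, for every finite field `F` and every generating set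
`S` of `G = SL₂(F)`, all but at most `C |G|^δ` elements `b` of `G` have the following property: every
element of `G` is a word of length at most `C log |G|` in `S ∪ {b}`. -/
theorem result (δ : ℝ) (hδ : 0 < δ) :
    ∃ C : ℝ, 0 < C ∧ ∀ (F : Type) [Field F] [Fintype F]
      (S : Set (Matrix.SpecialLinearGroup (Fin 2) F)), Subgroup.closure S = ⊤ →
      (({b : Matrix.SpecialLinearGroup (Fin 2) F |
        ¬ ∀ g : Matrix.SpecialLinearGroup (Fin 2) F, ∃ n : ℕ, IsWord (insert b S) n g ∧
          (n : ℝ) ≤ C * Real.log (Nat.card (Matrix.SpecialLinearGroup (Fin 2) F))}.ncard : ℕ) :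
            ℝ) ≤
        C * (Nat.card (Matrix.SpecialLinearGroup (Fin 2) F) : ℝ) ^ δ := by
  exact Pool.Agent.Helper72.PF.finalB δ hδ

end Pool.Agent.Results.MP_37b372_al.OneExtraGenerator
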