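import Pool.Agent.SFH.RedP

/-!
# Good primes for weakly group-theoretical fusion categories (MP_3062fa_al, Q1)

`K` is an algebraically closed field of characteristic `0`, `O` a valuation ring of `K` in which the prime `p` is not
invertible.  The class `ChainP K p` of fusion categories over `K` contains the nilpotent ones (in particular `Vec`) and
is closed under extensions by arbitrary finite groups and under equivariantizations by finite `p`-solvable groups.

If `X` is in `ChainP K p` and `p` is relatively prime to the Frobenius-Perron dimensions of all simple objects of `X`,
then `X` has an `O`-form (and hence a good reduction modulo the maximal ideal of `O`).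
-/

set_option autoImplicit false

open CategoryTheory MonoidalCategory

namespace Pool.Agent.Results.MP_3062fa_al.PSolvableChains

open Pool.Agent.NFG Pool.Agent.SFC

universe v u w

/-- The integer `p` and the algebraic integer `x` are relatively prime. -/
def RelPrime (p : ℕ) (x : ℝ) : Prop := ∃ a b : ℝ, IsIntegral ℤ a ∧ IsIntegral ℤ b ∧ a * p + b * x = 1

/-- Q1 for fusion categories obtained by extensions by finite groups and equivariantizations by finite `p`-solvable
groups. -/
theorem result {K : Type w} [Field K] [IsAlgClosed K] [CharZero K] (O : Subring K) (hO : Val O) (p : ℕ)
    (hp : p.Prime) (hpO : ((p : K))⁻¹ ∉ O) (X : FC.{v, u} K) (hX : ChainP K p X) (f : X.ι → ℝ) (hf : IsFPdim X.F f)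
    (h : ∀ i : X.ι, RelPrime p (f i)) : ∃ L : X.F.Sy, X.F.IsForm O L :=
  mainP hO hp hpO X hX f hf h

end Pool.Agent.Results.MP_3062fa_al.PSolvableChains
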