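import Pool.Agent.Helper72.PT.FinalD2

/-! # Generating sets of `SL_d(F)` containing a transvection, all odd characteristics -/

namespace Pool.Agent.Results.MP_37b372_al.TransvectionUniform

open Matrix Module

/-- `IsWord S n g`: the group element `g` is a product of at most `n` factors, each of which is an
element of `S` or the inverse of an element of `S`. -/
def IsWord {G : Type} [Group G] (S : Set G) (n : ℕ) (g : G) : Prop :=
  ∃ l : List G, l.length ≤ n ∧ (∀ x ∈ l, x ∈ S ∨ x⁻¹ ∈ S) ∧ l.prod = g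

/-- For every `d ≥ 2` there is `C > 0` such that, for every finite field `F` of odd characteristic `p`
and every generating set `S` of `G = SL_d(F)`: if some transvection `1 + v φ` (with a column `v ≠ 0`
and a row `φ ≠ 0`, `φ v = 0`) is a word of length at most `ℓ` in `S`, then every element of `G` is a word
of length at most `C ℓ (log p)^8 log |G|` in `S`. -/
theorem result (d : ℕ) (hd : 2 ≤ d) :
    ∃ C : ℝ, 0 < C ∧ ∀ (F : Type) [Field F] [Fintype F], ringChar F ≠ 2 →
      ∀ S : Set (Matrix.SpecialLinearGroup (Fin d) F), Subgroup.closure S = ⊤ →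
      ∀ v φ : Fin d → F, v ≠ 0 → φ ≠ 0 → φ ⬝ᵥ v = 0 →
      ∀ (ℓ : ℕ) (t : Matrix.SpecialLinearGroup (Fin d) F), IsWord S ℓ t →
        (t : Matrix (Fin d) (Fin d) F) = 1 + Matrix.vecMulVec v φ →
      ∀ g : Matrix.SpecialLinearGroup (Fin d) F, ∃ n : ℕ, IsWord S n g ∧
        (n : ℝ) ≤ C * ℓ * Real.log (ringChar F) ^ 8 *
          Real.log (Nat.card (Matrix.SpecialLinearGroup (Fin d) F)) := by
  obtain ⟨C, hC, h⟩ := Pool.Agent.Helper72.PT.finalD2 d hd
  refine ⟨C, hC, ?_⟩
  intro F _ _ hp
  have h2 : (2 : F) ≠ 0 := by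
    intro h0
    apply hp
    have h3 : ringChar F ∣ 2 := (ringChar.spec F 2).mp (by exact_mod_cast h0)
    have h4 : ringChar F ≠ 1 := CharP.ringChar_ne_one
    rcases (Nat.dvd_prime Nat.prime_two).mp h3 with h5 | h5
    · exact absurd h5 h4
    · exact h5
  exact h F h2

end Pool.Agent.Results.MP_37b372_al.TransvectionUniform
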